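import Pool.Agent.LibGW66.Defs
import Pool.Agent.LibFB23.Fin

/-! Copies of LibFB23 (R12a, R12, Fin) for a relation `S` instead of a bound of the windows. -/

open MeasureTheory Set Filter Topology
open scoped ContDiff

namespace GW66

open FG33 GWin Mes FB23

theorem mom_shift {lev : ℕ → ℝ} {S : ℕ → ℕ → Prop} {χ : ℝ → ℂ} (hl : Lev lev) (hχ : IsAmp χ) (hB : BS lev S χ)
    (r : ℕ) {u v : ℚ} (hu : 0 < u) (huv : u < v) : ∃ (C Λ : ℝ) (k0 : ℕ), 0 ≤ C ∧ ∀ k ≥ k0,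
    ∀ i : ℕ, Λ ≤ 2 ^ i → S k i → ∀ y : ℝ,
      1 / 2 ^ k * (∫ τ in ((u : ℝ) * 2 ^ k)..((v : ℝ) * 2 ^ k),
        st lev χ (2 ^ i) (τ + y / 2 ^ i) ^ (2 * r)) ≤ C * (1 + |y|) ^ (8 * r) := by
  obtain ⟨C0, hC0, hcr⟩ := crude hχ hl
  have hu' : (0 : ℝ) < u := by exact_mod_cast hu
  have huv' : (u : ℝ) < v := by exact_mod_cast huv
  have hv' : (0 : ℝ) < v := hu'.trans huv'
  obtain ⟨Λ, k0, hBA⟩ := hB (2 * r) (u / 2) (v + u) (by positivity) (by linarith) 1 one_pos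
  set K : ℝ := 2 * v / u + 1 with hK
  have hK1 : 1 ≤ K := by
    have : 0 ≤ 2 * (v : ℝ) / u := by positivity
    rw [hK]
    linarith
  set C1 : ℝ := ((v : ℝ) + u / 2) * (|gaussMom (vg χ) (2 * r)| + 1) with hC1
  set C2 : ℝ := (v - u) * (C0 * K ^ 4) ^ (2 * r) with hC2
  have hC1' : 0 ≤ C1 := by positivity
  have hC2' : 0 ≤ C2 := mul_nonneg (by linarith) (by positivity)
  refine ⟨C1 + C2, Λ, k0, by positivity, fun k hk i hi1 hi2 y => ?_⟩
  have hP : (0 : ℝ) < 2 ^ k := by positivity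
  have hL1 : (1 : ℝ) ≤ 2 ^ i := one_le_pow₀ (by norm_num)
  have hL0 : (0 : ℝ) < 2 ^ i := by positivity
  have hy0 := abs_nonneg y
  have h1y : (1 : ℝ) ≤ (1 + |y|) ^ (8 * r) := one_le_pow₀ (by linarith)
  have hcont : Continuous fun τ => st lev χ (2 ^ i) τ ^ (2 * r) := by
    have h1 := (st_shift_cont hχ hl hL0).comp (Continuous.prodMk_right (0 : ℝ))
    have h2 : ((fun p : ℝ × ℝ => st lev χ (2 ^ i) (p.2 + p.1 / 2 ^ i)) ∘ fun τ : ℝ =>
        ((0 : ℝ), τ)) = fun τ => st lev χ (2 ^ i) τ := by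
      funext τ
      simp
    rw [h2] at h1
    exact h1.pow _
  have hnn : ∀ τ, 0 ≤ st lev χ (2 ^ i) τ ^ (2 * r) := fun τ =>
    Even.pow_nonneg (even_two_mul r) _
  rcases le_or_gt (|y| / 2 ^ i) (u * 2 ^ k / 2) with hcase | hcase
  · have h1 : (∫ τ in ((u : ℝ) * 2 ^ k)..((v : ℝ) * 2 ^ k),
        st lev χ (2 ^ i) (τ + y / 2 ^ i) ^ (2 * r)) =
        ∫ τ in ((u : ℝ) * 2 ^ k + y / 2 ^ i)..((v : ℝ) * 2 ^ k + y / 2 ^ i),
          st lev χ (2 ^ i) τ ^ (2 * r) :=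
      intervalIntegral.integral_comp_add_right (fun τ => st lev χ (2 ^ i) τ ^ (2 * r)) (y / 2 ^ i)
    have hyL : |y / 2 ^ i| ≤ u * 2 ^ k / 2 := by
      rw [abs_div, abs_of_pos hL0]
      exact hcase
    have hyL' := abs_le.1 hyL
    have h2 : (∫ τ in ((u : ℝ) * 2 ^ k + y / 2 ^ i)..((v : ℝ) * 2 ^ k + y / 2 ^ i),
          st lev χ (2 ^ i) τ ^ (2 * r)) ≤
        ∫ τ in (((u / 2 : ℚ) : ℝ) * 2 ^ k)..(((v + u : ℚ) : ℝ) * 2 ^ k),
          st lev χ (2 ^ i) τ ^ (2 * r) := by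
      push_cast
      refine intervalIntegral.integral_mono_interval ?_ ?_ ?_
        (Eventually.of_forall fun τ => hnn τ) (hcont.intervalIntegrable _ _)
      · linarith [hyL'.1]
      · have : (u : ℝ) * 2 ^ k ≤ v * 2 ^ k := mul_le_mul_of_nonneg_right huv'.le hP.le
        linarith
      · have : 0 < (u : ℝ) * 2 ^ k := by positivity
        linarith [hyL'.2]
    have h3 := (abs_le.1 (hBA k hk i hi1 hi2)).2
    set I : ℝ := ∫ τ in (((u / 2 : ℚ) : ℝ) * 2 ^ k)..(((v + u : ℚ) : ℝ) * 2 ^ k),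
          st lev χ (2 ^ i) τ ^ (2 * r) with hI
    have h4 : ((((v + u : ℚ) : ℝ) - ((u / 2 : ℚ) : ℝ)) * 2 ^ k) = ((v : ℝ) + u / 2) * 2 ^ k := by
      push_cast
      ring
    rw [h4] at h3
    have h5 : 1 / (((v : ℝ) + u / 2) * 2 ^ k) * I ≤ |gaussMom (vg χ) (2 * r)| + 1 := by
      linarith [le_abs_self (gaussMom (vg χ) (2 * r))]
    have h6 : 1 / 2 ^ k * I ≤ C1 := by
      have h7 : 1 / 2 ^ k * I = ((v : ℝ) + u / 2) * (1 / (((v : ℝ) + u / 2) * 2 ^ k) * I) := by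
        field_simp
      rw [h7, hC1]
      exact mul_le_mul_of_nonneg_left h5 (by positivity)
    rw [h1]
    calc 1 / 2 ^ k * _ ≤ 1 / 2 ^ k * I := mul_le_mul_of_nonneg_left h2 (by positivity)
      _ ≤ C1 * 1 := by rw [mul_one]; exact h6
      _ ≤ (C1 + C2) * (1 + |y|) ^ (8 * r) :=
        mul_le_mul (by linarith) h1y zero_le_one (by positivity)
  · have hyL : |y| / 2 ^ i ≤ |y| := div_le_self hy0 hL1
    have hPy : (2 : ℝ) ^ k ≤ 2 * |y| / u := by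
      rw [le_div_iff₀ hu']
      nlinarith
    have hb : ∀ τ ∈ uIoc ((u : ℝ) * 2 ^ k) ((v : ℝ) * 2 ^ k),
        ‖st lev χ (2 ^ i) (τ + y / 2 ^ i) ^ (2 * r)‖ ≤
          (C0 * K ^ 4) ^ (2 * r) * (1 + |y|) ^ (8 * r) := by
      intro τ hτ
      rw [uIoc_of_le (mul_le_mul_of_nonneg_right huv'.le hP.le)] at hτ
      have hτ0 : 0 < τ := lt_trans (by positivity) hτ.1
      have h1 : |τ + y / 2 ^ i| ≤ K * |y| := by
        refine (abs_add_le _ _).trans ?_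
        rw [abs_of_pos hτ0, abs_div, abs_of_pos hL0]
        have h2 : τ ≤ v * (2 * |y| / u) := hτ.2.trans (mul_le_mul_of_nonneg_left hPy hv'.le)
        have h3 : (v : ℝ) * (2 * |y| / u) = 2 * v / u * |y| := by ring
        rw [hK, add_mul, one_mul]
        linarith
      have h2 : 1 + |τ + y / 2 ^ i| ≤ K * (1 + |y|) := by
        rw [mul_add, mul_one]
        linarith
      have h3 := hcr (2 ^ i) (τ + y / 2 ^ i) hL1
      have h4 : |st lev χ (2 ^ i) (τ + y / 2 ^ i)| ≤ C0 * K ^ 4 * (1 + |y|) ^ 4 := by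
        refine h3.trans ?_
        rw [mul_assoc, ← mul_pow]
        exact mul_le_mul_of_nonneg_left (pow_le_pow_left₀ (by positivity) h2 4) hC0
      rw [Real.norm_eq_abs, abs_pow]
      refine (pow_le_pow_left₀ (abs_nonneg _) h4 (2 * r)).trans (le_of_eq ?_)
      rw [mul_pow, ← pow_mul]
      congr 2
      ring
    have h5 := intervalIntegral.norm_integral_le_of_norm_le_const hb
    rw [Real.norm_eq_abs] at h5
    have h6 : |(v : ℝ) * 2 ^ k - u * 2 ^ k| = (v - u) * 2 ^ k := by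
      rw [← sub_mul, abs_of_nonneg]
      exact mul_nonneg (by linarith) hP.le
    rw [h6] at h5
    calc 1 / 2 ^ k * (∫ τ in ((u : ℝ) * 2 ^ k)..((v : ℝ) * 2 ^ k),
          st lev χ (2 ^ i) (τ + y / 2 ^ i) ^ (2 * r))
        ≤ 1 / 2 ^ k * ((C0 * K ^ 4) ^ (2 * r) * (1 + |y|) ^ (8 * r) * ((v - u) * 2 ^ k)) :=
          mul_le_mul_of_nonneg_left ((le_abs_self _).trans h5) (by positivity)
      _ = C2 * (1 + |y|) ^ (8 * r) := by
          rw [hC2]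
          field_simp
      _ ≤ (C1 + C2) * (1 + |y|) ^ (8 * r) :=
          mul_le_mul_of_nonneg_right (by linarith) (by positivity)

theorem ub {lev : ℕ → ℝ} {S : ℕ → ℕ → Prop} {χ : ℝ → ℂ} {R : ℝ} (hR0 : 0 ≤ R) (hl : Lev lev) (hχ : IsAmp χ)
    (h1 : ∀ t, |t| ≤ R → χ t = 1) (hB : BS lev S χ) : US lev S R := by
  intro r hr u v hu huv
  obtain ⟨C1, Λ, k0, hC1, hm⟩ := mom_shift hl hχ hB r hu huv
  have huv' : (u : ℝ) < v := by exact_mod_cast huv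
  have hu' : (0 : ℝ) < u := by exact_mod_cast hu
  obtain ⟨C2, hC2⟩ : ∃ C2 : ℝ, C2 = 2 ^ (2 * r) * (C1 + ((v : ℝ) - u)) := ⟨_, rfl⟩
  have hC20 : 0 ≤ C2 := by
    rw [hC2]
    exact mul_nonneg (by positivity) (by linarith)
  refine ⟨C2 / (2 * Real.pi) ^ (2 * r), Λ, k0, by positivity, ?_⟩
  intro k hk i hi hik b hb hRb
  obtain ⟨L, hL⟩ : ∃ L : ℝ, L = 2 ^ i := ⟨_, rfl⟩
  have hm' := hm k hk i hi hik
  rw [← hL] at hm' ⊢
  have hL1 : 1 ≤ L := by rw [hL]; exact one_le_pow₀ (by norm_num)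
  have hL0 : 0 < L := by linarith
  obtain ⟨P, hP⟩ : ∃ P : ℝ, P = 2 ^ k := ⟨_, rfl⟩
  rw [← hP] at hm' ⊢
  have hP0 : 0 < P := by rw [hP]; positivity
  have hαβ : (u : ℝ) * P ≤ v * P := mul_le_mul_of_nonneg_right huv'.le hP0.le
  obtain ⟨g, hg⟩ : ∃ g : ℝ × ℝ → ℝ, g = fun p => st lev χ L (p.2 + p.1 / L) + p.1 / L ^ 2 :=
    ⟨_, rfl⟩
  have hgc : Continuous g := by
    rw [hg]
    exact (st_shift_cont hχ hl hL0).add (by fun_prop)
  obtain ⟨Cc, hCc, hcr⟩ := crude hχ hl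
  have hyL : ∀ y : ℝ, |y / L| ≤ |y| := by
    intro y
    rw [abs_div, abs_of_pos hL0]
    exact div_le_self (abs_nonneg _) hL1
  have hyL2 : ∀ y : ℝ, |y / L ^ 2| ≤ |y| := by
    intro y
    rw [abs_div, abs_of_pos (by positivity : (0 : ℝ) < L ^ 2)]
    exact div_le_self (abs_nonneg _) (one_le_pow₀ hL1)
  have hbd : ∀ y, ∀ τ ∈ Icc ((u : ℝ) * P) (v * P),
      |g (y, τ)| ≤ (Cc * (1 + v * P) ^ 4 + 1) * (1 + |y|) ^ 4 := by
    intro y τ hτ
    have hτ0 : 0 ≤ τ := le_trans (by positivity) hτ.1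
    have h2 : 1 + |τ + y / L| ≤ (1 + v * P) * (1 + |y|) := by
      have h3 := abs_add_le τ (y / L)
      have h4 := hyL y
      have h5 : |τ| ≤ v * P := by rw [abs_of_nonneg hτ0]; exact hτ.2
      have h6 : 0 ≤ (v * P) * |y| := by
        have : 0 ≤ v * P := le_trans (abs_nonneg τ) h5
        positivity
      nlinarith
    have h7 : |y / L ^ 2| ≤ 1 * (1 + |y|) ^ 4 := by
      have h8 := hyL2 y
      have h9 : |y| ≤ 1 + |y| := by linarith
      have h10 : (1 + |y|) ^ 1 ≤ (1 + |y|) ^ 4 :=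
        pow_le_pow_right₀ (by have := abs_nonneg y; linarith) (by norm_num)
      rw [pow_one] at h10
      linarith
    have h11 : |st lev χ L (τ + y / L)| ≤ Cc * (1 + v * P) ^ 4 * (1 + |y|) ^ 4 := by
      refine (hcr L (τ + y / L) hL1).trans ?_
      calc Cc * (1 + |τ + y / L|) ^ 4 ≤ Cc * ((1 + v * P) * (1 + |y|)) ^ 4 :=
            mul_le_mul_of_nonneg_left (pow_le_pow_left₀ (by positivity) h2 4) hCc
        _ = Cc * (1 + v * P) ^ 4 * (1 + |y|) ^ 4 := by rw [mul_pow]; ring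
    rw [hg]
    simp only
    calc |st lev χ L (τ + y / L) + y / L ^ 2| ≤ |st lev χ L (τ + y / L)| + |y / L ^ 2| :=
          abs_add_le _ _
      _ ≤ Cc * (1 + v * P) ^ 4 * (1 + |y|) ^ 4 + 1 * (1 + |y|) ^ 4 := add_le_add h11 h7
      _ = (Cc * (1 + v * P) ^ 4 + 1) * (1 + |y|) ^ 4 := by ring
  have hJ := jensen (w := tf b) (tf_cont hb) hr (fun M => W_int hb M) hgc hαβ hbd
  -- the inner integrals
  have hin : ∀ y : ℝ, ∫ τ in ((u : ℝ) * P)..(v * P), g (y, τ) ^ (2 * r) ≤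
      P * C2 * (1 + |y|) ^ (8 * r) := by
    intro y
    have hc1 : Continuous fun τ => st lev χ L (τ + y / L) ^ (2 * r) :=
      ((st_cont hχ hl hL0).comp (by fun_prop)).pow _
    have h2 : ∫ τ in ((u : ℝ) * P)..(v * P), g (y, τ) ^ (2 * r) ≤
        ∫ τ in ((u : ℝ) * P)..(v * P),
          2 ^ (2 * r) * (st lev χ L (τ + y / L) ^ (2 * r) + (y / L ^ 2) ^ (2 * r)) := by
      refine intervalIntegral.integral_mono_on hαβ ?_ ?_ ?_
      · exact (Continuous.intervalIntegrable (by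
          exact (hgc.comp (by fun_prop : Continuous fun τ : ℝ => (y, τ))).pow _) _ _)
      · exact (Continuous.intervalIntegrable (by fun_prop) _ _)
      · intro τ _
        rw [hg]
        exact add_pow_even _ _ _
    rw [intervalIntegral.integral_const_mul, intervalIntegral.integral_add
      (hc1.intervalIntegrable _ _) (by simp), intervalIntegral.integral_const, smul_eq_mul] at h2
    refine h2.trans ?_
    have h3 := hm' y
    rw [one_div, inv_mul_le_iff₀ hP0] at h3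
    have h4 : (y / L ^ 2) ^ (2 * r) ≤ (1 + |y|) ^ (8 * r) := by
      calc (y / L ^ 2) ^ (2 * r) = |y / L ^ 2| ^ (2 * r) := (Even.pow_abs ⟨r, by ring⟩ _).symm
        _ ≤ (1 + |y|) ^ (2 * r) := by
            refine pow_le_pow_left₀ (abs_nonneg _) ?_ _
            have := hyL2 y
            linarith
        _ ≤ (1 + |y|) ^ (8 * r) :=
            pow_le_pow_right₀ (by have := abs_nonneg y; linarith) (by omega)
    have h5 : ((v : ℝ) * P - u * P) * (y / L ^ 2) ^ (2 * r) ≤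
        ((v : ℝ) * P - u * P) * (1 + |y|) ^ (8 * r) :=
      mul_le_mul_of_nonneg_left h4 (by linarith)
    calc 2 ^ (2 * r) * ((∫ τ in ((u : ℝ) * P)..(v * P), st lev χ L (τ + y / L) ^ (2 * r)) +
          ((v : ℝ) * P - u * P) * (y / L ^ 2) ^ (2 * r))
        ≤ 2 ^ (2 * r) * (P * (C1 * (1 + |y|) ^ (8 * r)) +
          ((v : ℝ) * P - u * P) * (1 + |y|) ^ (8 * r)) :=
          mul_le_mul_of_nonneg_left (add_le_add h3 h5) (by positivity)
      _ = P * C2 * (1 + |y|) ^ (8 * r) := by rw [hC2]; ring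
  have hW0 : 0 ≤ W (8 * r) b := W_nonneg _ _
  have hout : ∫ y, |tf b y| * ∫ τ in ((u : ℝ) * P)..(v * P), g (y, τ) ^ (2 * r) ≤
      P * C2 * W (8 * r) b := by
    have h2 : ∫ y, |tf b y| * ∫ τ in ((u : ℝ) * P)..(v * P), g (y, τ) ^ (2 * r) ≤
        ∫ y, (P * C2) * (|tf b y| * (1 + |y|) ^ (8 * r)) := by
      refine integral_mono_of_nonneg (ae_of_all _ fun y => ?_) ((W_int hb _).const_mul _)
        (ae_of_all _ fun y => ?_)
      · refine mul_nonneg (abs_nonneg _) (intervalIntegral.integral_nonneg hαβ fun τ _ => ?_)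
        exact Even.pow_nonneg ⟨r, by ring⟩ _
      · have := mul_le_mul_of_nonneg_left (hin y) (abs_nonneg (tf b y))
        simp only
        calc |tf b y| * ∫ τ in ((u : ℝ) * P)..(v * P), g (y, τ) ^ (2 * r)
            ≤ |tf b y| * (P * C2 * (1 + |y|) ^ (8 * r)) := this
          _ = _ := by ring
    rw [integral_const_mul] at h2
    exact h2
  have hWm : ∫ y, |tf b y| ≤ W (8 * r) b := by
    have h2 := W_mono hb (Nat.zero_le (8 * r))
    have h3 : W 0 b = ∫ y, |tf b y| := by simp [W]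
    rw [← h3]
    exact h2
  have hfin : ∫ τ in ((u : ℝ) * P)..(v * P), (∫ y, tf b y * g (y, τ)) ^ (2 * r) ≤
      P * (C2 * W (8 * r) b ^ (2 * r)) := by
    refine hJ.trans ?_
    have h2 : (∫ y, |tf b y|) ^ (2 * r - 1) ≤ W (8 * r) b ^ (2 * r - 1) :=
      pow_le_pow_left₀ (integral_nonneg fun _ => abs_nonneg _) hWm _
    calc (∫ y, |tf b y|) ^ (2 * r - 1) *
          ∫ y, |tf b y| * ∫ τ in ((u : ℝ) * P)..(v * P), g (y, τ) ^ (2 * r)
        ≤ (∫ y, |tf b y|) ^ (2 * r - 1) * (P * C2 * W (8 * r) b) :=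
          mul_le_mul_of_nonneg_left hout
            (pow_nonneg (integral_nonneg fun _ => abs_nonneg _) _)
      _ ≤ W (8 * r) b ^ (2 * r - 1) * (P * C2 * W (8 * r) b) :=
          mul_le_mul_of_nonneg_right h2 (by positivity)
      _ = P * (C2 * (W (8 * r) b ^ (2 * r - 1) * W (8 * r) b)) := by ring
      _ = P * (C2 * W (8 * r) b ^ (2 * r)) := by
          rw [← pow_succ, show 2 * r - 1 + 1 = 2 * r by omega]
  have hst : ∀ τ : ℝ, (∫ y, tf b y * g (y, τ)) ^ (2 * r) =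
      (2 * Real.pi) ^ (2 * r) * st lev b L τ ^ (2 * r) := by
    intro τ
    have h2 := (st_conv hb hχ hR0 hRb h1 hl hL1 τ).2
    rw [← mul_pow, h2, hg]
  simp only [hst] at hfin
  rw [intervalIntegral.integral_const_mul] at hfin
  have hpi : (0 : ℝ) < (2 * Real.pi) ^ (2 * r) := by positivity
  rw [one_div, inv_mul_le_iff₀ hP0, div_mul_eq_mul_div, ← mul_div_assoc, le_div_iff₀ hpi]
  linarith

theorem US.get {lev : ℕ → ℝ} {S : ℕ → ℕ → Prop} {R : ℝ} (h : US lev S R) {r : ℕ} (hr : 1 ≤ r) :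
    ∃ (C Λ : ℝ) (k0 : ℕ), 0 ≤ C ∧ ∀ k ≥ k0,
    ∀ i : ℕ, Λ ≤ 2 ^ i → S k i → ∀ b : ℝ → ℂ, IsAmp b → Sup R b →
      1 / 2 ^ k * (∫ τ in ((2 : ℝ) ^ k)..(4 * (2 : ℝ) ^ k), st lev b (2 ^ i) τ ^ (2 * r)) ≤
        C * W (8 * r) b ^ (2 * r) := by
  obtain ⟨C, Λ, k0, hC, h1⟩ := h r hr 1 4 (by norm_num) (by norm_num)
  refine ⟨C, Λ, k0, hC, fun k hk i hi hi2 b hb hbR => ?_⟩
  have h2 := h1 k hk i hi hi2 b hb hbR
  simp only [Rat.cast_one, one_mul, Rat.cast_ofNat] at h2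
  exact h2

/-- a rational number in `[1, 2]` near a given one -/

theorem unif {A : ℕ → ℝ → ℂ} (hA : Dense A) {lev : ℕ → ℝ} {S : ℕ → ℕ → Prop} (hl : Lev lev)
    (hB : ∀ j, BS lev S (A j)) {a : ℝ → ℂ} (ha : IsAmp a) (r : ℕ) {ε : ℝ} (hε : 0 < ε) :
    ∃ (Λ : ℝ) (k0 : ℕ), ∀ k ≥ k0, ∀ i : ℕ, Λ ≤ 2 ^ i → S k i → ∀ θ s : ℝ, 1 ≤ θ →
      θ ≤ 2 → 1 ≤ s → s ≤ 2 →
      |1 / (θ * 2 ^ k) * (∫ τ in (θ * 2 ^ k)..(2 * (θ * 2 ^ k)), st lev a (s * 2 ^ i) τ ^ r) -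
        gaussMom (vg a) r| ≤ ε := by
  rcases Nat.eq_zero_or_pos r with hr0 | hr0
  · subst hr0
    refine ⟨0, 0, fun k _ i _ _ θ s hθ _ _ _ => ?_⟩
    have hP : (0 : ℝ) < θ * 2 ^ k := by positivity
    have h0 : gaussMom (vg a) 0 = 1 := by
      unfold gaussMom
      simp
    have h1 : 1 / (θ * 2 ^ k) * (∫ τ in (θ * 2 ^ k)..(2 * (θ * 2 ^ k)),
        st lev a (s * 2 ^ i) τ ^ 0) = 1 := by
      simp only [pow_zero, intervalIntegral.integral_const, smul_eq_mul, mul_one]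
      field_simp
      ring
    rw [h0, h1, sub_self, abs_zero]
    exact hε.le
  by_contra hcon
  push Not at hcon
  choose kk hkk ii hii hiiS θθ ss hθ1 hθ2 hs1 hs2 hbad using fun n : ℕ => hcon n n
  -- support
  obtain ⟨R0, hR0⟩ := exists_sup ha
  set R : ℕ := 2 * R0 with hRdef
  have hRc : (R : ℝ) = 2 * (R0 : ℝ) := by
    rw [hRdef]
    push_cast
    ring
  have hS : ∀ s : ℝ, 1 ≤ s → s ≤ 2 → Sup R (sca s a) := by
    intro s h1 h2
    rw [hRc]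
    exact sca_sup (Nat.cast_nonneg _) hR0 (by linarith) h2
  -- the uniform bounds
  obtain ⟨jc, hjc⟩ := hA.cut R
  have hU : US lev S R := ub (Nat.cast_nonneg _) hl (hA.amp jc) hjc (hB jc)
  obtain ⟨C1, Λ1, k1, hC1, h1⟩ := hU.get le_rfl
  obtain ⟨Cr, Λr, kr, hCr, hr⟩ := hU.get hr0
  obtain ⟨B0, hB0, hWB⟩ := W_sca_bdd ha (8 * r)
  obtain ⟨Cs, hCs, hlip⟩ := sca_lip ha (8 * r)
  have hM8 : 8 ≤ 8 * r := by omega
  -- limit points
  set U : Ultrafilter ℕ := Ultrafilter.of atTop with hUdef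
  have hU' : (U : Filter ℕ) ≤ atTop := Ultrafilter.of_le _
  obtain ⟨θ', hθ', hθl⟩ := lim_pt (U := U) (f := θθ) fun n => ⟨hθ1 n, hθ2 n⟩
  obtain ⟨s', hs', hsl⟩ := lim_pt (U := U) (f := ss) fun n => ⟨hs1 n, hs2 n⟩
  -- the choice of `δ`
  set J : ℝ := Cr * (B0 + 1) ^ (2 * r) with hJ
  obtain ⟨η, hη, hηg⟩ := Metric.continuousAt_iff.1 ((gaussMom_cont r).continuousAt (x := vg a))
    (ε / 8) (by linarith)
  have c1 : ∀ᶠ δ : ℝ in 𝓝[>] 0, 6 * (1 + J) * √(2 * δ) < ε / 8 := by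
    have hc : Continuous fun δ : ℝ => 6 * (1 + J) * √(2 * δ) := by fun_prop
    have h0 : (fun δ : ℝ => 6 * (1 + J) * √(2 * δ)) 0 < ε / 8 := by
      simp only [mul_zero, Real.sqrt_zero]
      linarith
    exact (hc.continuousAt.eventually_lt continuousAt_const h0).filter_mono nhdsWithin_le_nhds
  have c2 : ∀ᶠ δ : ℝ in 𝓝[>] 0, r * √(C1 * (2 * δ) ^ 2) * (3 + J) < ε / 8 := by
    have hc : Continuous fun δ : ℝ => r * √(C1 * (2 * δ) ^ 2) * (3 + J) := by fun_prop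
    have h0 : (fun δ : ℝ => r * √(C1 * (2 * δ) ^ 2) * (3 + J)) 0 < ε / 8 := by
      simp only [mul_zero, ne_eq, OfNat.ofNat_ne_zero, not_false_eq_true, zero_pow,
        Real.sqrt_zero, zero_mul]
      linarith
    exact (hc.continuousAt.eventually_lt continuousAt_const h0).filter_mono nhdsWithin_le_nhds
  have c3 : ∀ᶠ δ : ℝ in 𝓝[>] 0, 2 * (R : ℝ) ^ 2 * (2 * B0 + 1) * δ < η := by
    have hc : Continuous fun δ : ℝ => 2 * (R : ℝ) ^ 2 * (2 * B0 + 1) * δ := by fun_prop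
    have h0 : (fun δ : ℝ => 2 * (R : ℝ) ^ 2 * (2 * B0 + 1) * δ) 0 < η := by
      simp only [mul_zero]
      exact hη
    exact (hc.continuousAt.eventually_lt continuousAt_const h0).filter_mono nhdsWithin_le_nhds
  have c4 : ∀ᶠ δ : ℝ in 𝓝[>] 0, δ < 1 :=
    (Filter.Tendsto.eventually_lt_const one_pos tendsto_id).filter_mono nhdsWithin_le_nhds
  have c5 : ∀ᶠ δ : ℝ in 𝓝[>] 0, 0 < δ := eventually_mem_nhdsWithin
  obtain ⟨δ, ⟨⟨⟨hδ1, hδ2⟩, hδ3⟩, hδ4⟩, hδ⟩ := ((((c1.and c2).and c3).and c4).and c5).exists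
  -- the amplitude and the window
  obtain ⟨j, hjR, hjW⟩ := hA.dense R (8 * r) (sca s' a) (sca_amp ha (by linarith [hs'.1]))
    (hS s' hs'.1 hs'.2) δ hδ
  obtain ⟨u, hu1, hu2, huθ⟩ := rat_near hθ'.1 hθ'.2 hδ
  have hu0 : (0 : ℚ) < u := by
    have : (0 : ℝ) < u := by linarith
    exact_mod_cast this
  obtain ⟨Λj, kj, hj⟩ := hB j r u (2 * u) hu0 (by linarith) (ε / 8) (by linarith)
  have hAj := hA.amp j
  have hs'0 : 0 < s' := by linarith [hs'.1]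
  have hWj : W (8 * r) (A j) ≤ B0 + 1 := by
    have h2 := W_le_add (sca_amp ha hs'0) hAj (8 * r)
    have h3 := hWB s' hs'.1 hs'.2
    linarith
  -- the variance
  have hvar : |gaussMom (vg (A j)) r - gaussMom (vg a) r| < ε / 8 := by
    have h2 := vg_lip (sca_amp ha hs'0) hAj (R := R) (Nat.cast_nonneg _) (hS s' hs'.1 hs'.2) hjR
    rw [sca_vg ha hs'0] at h2
    have w1 : W 0 (sca s' a) ≤ B0 :=
      (W_mono (sca_amp ha hs'0) (Nat.zero_le _)).trans (hWB s' hs'.1 hs'.2)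
    have w2 : W 0 (A j) ≤ B0 + 1 := (W_mono hAj (Nat.zero_le _)).trans hWj
    have w3 : W 0 (sca s' a - A j) ≤ δ :=
      (W_mono (amp_sub (sca_amp ha hs'0) hAj) (Nat.zero_le _)).trans hjW.le
    have h3 : |vg a - vg (A j)| ≤ 2 * (R : ℝ) ^ 2 * (2 * B0 + 1) * δ := by
      refine h2.trans ?_
      refine mul_le_mul (mul_le_mul_of_nonneg_left (by linarith) (by positivity)) w3
        (W_nonneg _ _) (by positivity)
    have h4 := hηg (x := vg (A j)) (by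
      rw [Real.dist_eq, abs_sub_comm]
      exact lt_of_le_of_lt h3 hδ3)
    rwa [Real.dist_eq] at h4
  -- eventually
  have d1 : ∀ᶠ n in (U : Filter ℕ), |θθ n - θ'| < δ := by
    have h2 := Metric.tendsto_nhds.1 hθl δ hδ
    simpa only [Real.dist_eq] using h2
  have hδC : 0 < δ / (Cs + 1) := by positivity
  have d2 : ∀ᶠ n in (U : Filter ℕ), |ss n - s'| < δ / (Cs + 1) := by
    have h2 := Metric.tendsto_nhds.1 hsl _ hδC
    simpa only [Real.dist_eq] using h2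
  have d3 : ∀ᶠ n : ℕ in (U : Filter ℕ), max (max Λ1 Λr) Λj ≤ (n : ℝ) :=
    hU' (tendsto_natCast_atTop_atTop.eventually (eventually_ge_atTop _))
  have d4 : ∀ᶠ n in (U : Filter ℕ), max (max k1 kr) kj ≤ n := hU' (eventually_ge_atTop _)
  obtain ⟨n, ⟨⟨hd1, hd2⟩, hd3⟩, hd4⟩ := (((d1.and d2).and d3).and d4).exists
  have hbn := hbad n
  have hd3' := hd3.trans (hii n)
  have hd4' := hd4.trans (hkk n)
  have hiS := hiiS n
  set k := kk n with hk
  set i := ii n with hi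
  set θ := θθ n with hθ
  set s := ss n with hs
  have hPk : (0 : ℝ) < 2 ^ k := by positivity
  have hPi : (0 : ℝ) < 2 ^ i := by positivity
  have hθI' : θ ∈ Icc (1 : ℝ) 2 := ⟨hθ1 n, hθ2 n⟩
  have hsI' : s ∈ Icc (1 : ℝ) 2 := ⟨hs1 n, hs2 n⟩
  have hs0 : 0 < s := by linarith [hsI'.1]
  have hΛ1 : Λ1 ≤ (2 : ℝ) ^ i := ((le_max_left _ _).trans (le_max_left _ _)).trans hd3'
  have hΛr : Λr ≤ (2 : ℝ) ^ i := ((le_max_right _ _).trans (le_max_left _ _)).trans hd3'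
  have hΛj : Λj ≤ (2 : ℝ) ^ i := (le_max_right _ _).trans hd3'
  have hk1 : k1 ≤ k := ((le_max_left _ _).trans (le_max_left _ _)).trans hd4'
  have hkr : kr ≤ k := ((le_max_right _ _).trans (le_max_left _ _)).trans hd4'
  have hkj : kj ≤ k := (le_max_right _ _).trans hd4'
  have hWs : W 8 (sca s a - A j) ≤ 2 * δ := by
    have h2 := hlip s s' hsI'.1 hsI'.2 hs'.1 hs'.2
    have h3 : Cs * |s - s'| ≤ δ := by
      have h4 : Cs * |s - s'| ≤ (Cs + 1) * (δ / (Cs + 1)) :=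
        mul_le_mul (by linarith) hd2.le (abs_nonneg _) (by linarith)
      rwa [mul_div_cancel₀ _ (by positivity : Cs + 1 ≠ 0)] at h4
    have h5 := W_tri (sca_amp ha hs0) (sca_amp ha hs'0) hAj (8 * r)
    have h6 := W_mono (amp_sub (sca_amp ha hs0) hAj) hM8
    linarith
  have key := one_step (R := R) (r := r) (C1 := C1) (Cr := Cr) (B := B0 + 1) (wd := 2 * δ)
    (P := 2 ^ k) (l := 2 ^ i) hl hC1 hCr hPk hPi (h1 k hk1 i hΛ1 hiS) (hr k hkr i hΛr hiS)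
    (sca_amp ha hs0) hAj (hS s hsI'.1 hsI'.2) hjR ((hWB s hsI'.1 hsI'.2).trans (by linarith)) hWj
    hWs hθI'.1 hθI'.2 hu1 hu2
  have hθu : |θ - u| ≤ 2 * δ := by
    have := abs_sub_le θ θ' u
    linarith
  have hJ0 : 0 ≤ J := by positivity
  have hsq : 6 * (1 + J) * √|θ - u| ≤ 6 * (1 + J) * √(2 * δ) :=
    mul_le_mul_of_nonneg_left (Real.sqrt_le_sqrt hθu) (by positivity)
  have key2 := hj k hkj i hΛj hiS
  have e1 : 1 / (θ * 2 ^ k) * (∫ τ in (θ * 2 ^ k)..(2 * (θ * 2 ^ k)),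
      st lev a (s * 2 ^ i) τ ^ r) =
      1 / (θ * 2 ^ k) * ∫ τ in (θ * 2 ^ k)..(2 * (θ * 2 ^ k)), st lev (sca s a) (2 ^ i) τ ^ r := by
    congr 1
    refine intervalIntegral.integral_congr fun τ _ => ?_
    show st lev a (s * 2 ^ i) τ ^ r = st lev (sca s a) (2 ^ i) τ ^ r
    rw [sca_st ha hs0 lev hPi]
  have e2 : 1 / ((((2 * u : ℚ) : ℝ) - u) * 2 ^ k) * (∫ τ in ((u : ℝ) * 2 ^ k)..(((2 * u : ℚ) : ℝ) *
      2 ^ k), st lev (A j) (2 ^ i) τ ^ r) = 1 / (u * 2 ^ k) *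
      ∫ τ in ((u : ℝ) * 2 ^ k)..(2 * (u * 2 ^ k)), st lev (A j) (2 ^ i) τ ^ r := by
    push_cast
    congr 2
    · ring
    · ring
  rw [e2] at key2
  rw [e1] at hbn
  have a1 := abs_sub_le (1 / (θ * 2 ^ k) * ∫ τ in (θ * 2 ^ k)..(2 * (θ * 2 ^ k)),
    st lev (sca s a) (2 ^ i) τ ^ r) (1 / (u * 2 ^ k) *
      ∫ τ in ((u : ℝ) * 2 ^ k)..(2 * (u * 2 ^ k)), st lev (A j) (2 ^ i) τ ^ r)
      (gaussMom (vg a) r)
  have a2 := abs_sub_le (1 / (u * 2 ^ k) *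
      ∫ τ in ((u : ℝ) * 2 ^ k)..(2 * (u * 2 ^ k)), st lev (A j) (2 ^ i) τ ^ r)
      (gaussMom (vg (A j)) r) (gaussMom (vg a) r)
  linarith

theorem loc {A : ℕ → ℝ → ℂ} (hA : Dense A) {lev : ℕ → ℝ} (hl : Lev lev) {S : ℕ → ℕ → Prop}
    (hB : ∀ j, BS lev S (A j)) : Loc lev S := by
  intro a ha r ε hε
  obtain ⟨Λ, k0, h⟩ := unif hA hl hB ha r hε
  refine ⟨Λ, k0, fun k hk i hi hS θ hθ s hs => ?_⟩
  exact h k hk i hi hS θ s hθ.1 hθ.2 hs.1 hs.2

end GW66
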