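import Mathlib

/-! ROW C2 : the triangular mean from dyadic windows. MEDIUM, ONLY MATHLIB.
PLAN. `F x = ∫ u in 0..x, X u`. (i) crude: `|F y| ≤ C (1 + y) ^ (N + 1)` for `y ≥ 0`. (ii) for `Y ≤ x ≤ T` (induction on `J`,
`F x - F (x / 2 ^ J) = ∑_{j < J} ∫ over [x / 2 ^ (j + 1), x / 2 ^ j]`, each is `(x / 2 ^ (j + 1)) (g + O(ε))` by `hw` as long as
`Y ≤ x / 2 ^ (j + 1)`): choose `J` with `Y ≤ x / 2 ^ J < 2 Y` (`exists_nat_pow_near`), so
`|F x - g x| ≤ ε x + (|g| + C) (1 + 2 Y) ^ (N + 1)`. For `x < Y` the same bound by (i). (iii) integration by parts: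
`∫ u in 0..T, (T - u) * X u = ∫ x in 0..T, F x` (`intervalIntegral.integral_mul_deriv_eq_deriv_mul` with `F' = X`,
`F 0 = 0`), and `∫ x in 0..T, g x = g T ^ 2 / 2`; so the difference is at most `ε + 2 (|g| + C) (1 + 2 Y) ^ (N + 1) / T`. -/

open MeasureTheory Set Filter Topology

namespace GW66

private theorem C2_crude {X : ℝ → ℝ} {C : ℝ} (N : ℕ) (hC : 0 ≤ C)
    (hb : ∀ τ, 0 ≤ τ → |X τ| ≤ C * (1 + τ) ^ N) {x : ℝ} (hx : 0 ≤ x) :
    |∫ u in (0 : ℝ)..x, X u| ≤ C * (1 + x) ^ (N + 1) := by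
  have h1 : ‖∫ u in (0 : ℝ)..x, X u‖ ≤ C * (1 + x) ^ N * |x - 0| := by
    refine intervalIntegral.norm_integral_le_of_norm_le_const fun u hu => ?_
    rw [uIoc_of_le hx] at hu
    rw [Real.norm_eq_abs]
    refine (hb u hu.1.le).trans (mul_le_mul_of_nonneg_left ?_ hC)
    exact pow_le_pow_left₀ (by linarith [hu.1]) (by linarith [hu.2]) N
  rw [Real.norm_eq_abs, sub_zero, abs_of_nonneg hx] at h1
  refine h1.trans ?_
  rw [pow_succ, ← mul_assoc]
  exact mul_le_mul_of_nonneg_left (by linarith) (by positivity)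

private theorem C2_dyadic {X : ℝ → ℝ} (hX : Continuous X) {C g ε Y T : ℝ} (N : ℕ) (hC : 0 ≤ C)
    (hb : ∀ τ, 0 ≤ τ → |X τ| ≤ C * (1 + τ) ^ N) (hY : 0 < Y) (hε : 0 ≤ ε)
    (hw : ∀ y, Y ≤ y → 2 * y ≤ T → |1 / y * (∫ τ in y..2 * y, X τ) - g| ≤ ε) (J : ℕ) :
    ∀ x : ℝ, 0 ≤ x → x ≤ T → x < 2 ^ (J + 1) * Y →
      |(∫ u in (0 : ℝ)..x, X u) - g * x| ≤ ε * x + (|g| + C) * (1 + 2 * Y) ^ (N + 1) := by
  have base : ∀ x : ℝ, 0 ≤ x → x < 2 * Y →
      |(∫ u in (0 : ℝ)..x, X u) - g * x| ≤ ε * x + (|g| + C) * (1 + 2 * Y) ^ (N + 1) := by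
    intro x hx hx2
    have h1 := C2_crude N hC hb hx
    have h2 : C * (1 + x) ^ (N + 1) ≤ C * (1 + 2 * Y) ^ (N + 1) :=
      mul_le_mul_of_nonneg_left (pow_le_pow_left₀ (by linarith) (by linarith) _) hC
    have h3 : |g * x| ≤ |g| * (1 + 2 * Y) ^ (N + 1) := by
      rw [abs_mul, abs_of_nonneg hx]
      refine mul_le_mul_of_nonneg_left ?_ (abs_nonneg g)
      calc x ≤ 1 + 2 * Y := by linarith
        _ = (1 + 2 * Y) ^ 1 := (pow_one _).symm
        _ ≤ (1 + 2 * Y) ^ (N + 1) := pow_le_pow_right₀ (by linarith) (by omega)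
    have h4 : 0 ≤ ε * x := mul_nonneg hε hx
    refine (abs_sub _ _).trans ?_
    linarith
  induction J with
  | zero =>
    intro x hx hxT hx2
    exact base x hx (by simpa using hx2)
  | succ J ih =>
    intro x hx hxT hx2
    rcases lt_or_ge x (2 * Y) with h | h
    · exact base x hx h
    · have h1 := ih (x / 2) (by linarith) (by linarith) (by
        rw [pow_succ] at hx2
        linarith)
      have h2 := hw (x / 2) (by linarith) (by linarith)
      have h3 : 2 * (x / 2) = x := by ring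
      rw [h3] at h2
      have hx0 : 0 < x / 2 := by linarith
      have h4 : |(∫ τ in (x / 2)..x, X τ) - g * (x / 2)| ≤ ε * (x / 2) := by
        have h5 : (∫ τ in (x / 2)..x, X τ) - g * (x / 2) =
            (x / 2) * (1 / (x / 2) * (∫ τ in (x / 2)..x, X τ) - g) := by
          rw [mul_sub, ← mul_assoc, mul_one_div_cancel hx0.ne', one_mul]
          ring
        rw [h5, abs_mul, abs_of_pos hx0, mul_comm ε]
        exact mul_le_mul_of_nonneg_left h2 hx0.le
      have h6 : (∫ u in (0 : ℝ)..x, X u) = (∫ u in (0 : ℝ)..(x / 2), X u) + ∫ u in (x / 2)..x, X u :=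
        (intervalIntegral.integral_add_adjacent_intervals (hX.intervalIntegrable _ _)
          (hX.intervalIntegrable _ _)).symm
      have h7 : (∫ u in (0 : ℝ)..x, X u) - g * x = ((∫ u in (0 : ℝ)..(x / 2), X u) - g * (x / 2)) +
          ((∫ τ in (x / 2)..x, X τ) - g * (x / 2)) := by
        rw [h6]
        ring
      rw [h7]
      refine (abs_add_le _ _).trans ?_
      linarith

theorem tri_mean {X : ℝ → ℝ} (hX : Continuous X) {C g ε Y T : ℝ} (N : ℕ) (hC : 0 ≤ C)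
    (hb : ∀ τ, 0 ≤ τ → |X τ| ≤ C * (1 + τ) ^ N) (hY : 0 < Y) (hYT : Y ≤ T) (hε : 0 ≤ ε)
    (hw : ∀ y, Y ≤ y → 2 * y ≤ T → |1 / y * (∫ τ in y..2 * y, X τ) - g| ≤ ε) :
    |2 / T ^ 2 * (∫ τ in (0 : ℝ)..T, (T - τ) * X τ) - g| ≤
      ε + 2 * (|g| + C) * (1 + 2 * Y) ^ (N + 1) / T := by
  have hT : 0 < T := by linarith
  set K : ℝ := (|g| + C) * (1 + 2 * Y) ^ (N + 1) with hK
  set F : ℝ → ℝ := fun x => ∫ u in (0 : ℝ)..x, X u with hF
  have hFd : ∀ x, HasDerivAt F (X x) x := fun x => (hX.integral_hasStrictDerivAt 0 x).hasDerivAt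
  have hFc : Continuous F := continuous_iff_continuousAt.2 fun x => (hFd x).continuousAt
  have hle : ∀ x : ℝ, 0 ≤ x → x ≤ T → |F x - g * x| ≤ ε * x + K := by
    intro x hx hxT
    obtain ⟨J, hJ⟩ := pow_unbounded_of_one_lt (x / Y) (by norm_num : (1 : ℝ) < 2)
    refine C2_dyadic hX N hC hb hY hε hw J x hx hxT ?_
    rw [div_lt_iff₀ hY] at hJ
    have : (2 : ℝ) ^ J * Y ≤ 2 ^ (J + 1) * Y := by
      refine mul_le_mul_of_nonneg_right ?_ hY.le
      exact pow_le_pow_right₀ (by norm_num) (by omega)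
    linarith
  have hparts : (∫ τ in (0 : ℝ)..T, (T - τ) * X τ) = ∫ x in (0 : ℝ)..T, F x := by
    have h1 := intervalIntegral.integral_mul_deriv_eq_deriv_mul (a := 0) (b := T)
      (u := fun τ => T - τ) (u' := fun _ => -1) (v := F) (v' := X)
      (fun x _ => by simpa using (hasDerivAt_id x).const_sub T) (fun x _ => hFd x)
      (continuous_const.intervalIntegrable _ _) (hX.intervalIntegrable _ _)
    rw [h1]
    have h2 : F 0 = 0 := by
      rw [hF]
      exact intervalIntegral.integral_same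
    rw [h2, sub_self, zero_mul, mul_zero, sub_zero, zero_sub, ← intervalIntegral.integral_neg]
    congr 1
    funext x
    ring
  have hint : ‖∫ x in (0 : ℝ)..T, (F x - g * x)‖ ≤ ∫ x in (0 : ℝ)..T, (ε * x + K) := by
    refine intervalIntegral.norm_integral_le_of_norm_le hT.le ?_ ?_
    · exact Filter.Eventually.of_forall fun x hx => hle x hx.1.le hx.2
    · exact (Continuous.intervalIntegrable (by fun_prop) _ _)
  have i1 : (∫ x in (0 : ℝ)..T, (F x - g * x)) = (∫ x in (0 : ℝ)..T, F x) - g * (T ^ 2 / 2) := by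
    rw [intervalIntegral.integral_sub (hFc.intervalIntegrable _ _)
      (Continuous.intervalIntegrable (by fun_prop) _ _), intervalIntegral.integral_const_mul, integral_id]
    ring
  have i2 : (∫ x in (0 : ℝ)..T, (ε * x + K)) = ε * (T ^ 2 / 2) + K * T := by
    rw [intervalIntegral.integral_add (Continuous.intervalIntegrable (by fun_prop) _ _)
      (continuous_const.intervalIntegrable _ _), intervalIntegral.integral_const_mul, integral_id,
      intervalIntegral.integral_const]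
    simp only [smul_eq_mul]
    ring
  rw [i1, i2, Real.norm_eq_abs] at hint
  rw [hparts]
  have h3 : 2 / T ^ 2 * (∫ x in (0 : ℝ)..T, F x) - g =
      2 / T ^ 2 * ((∫ x in (0 : ℝ)..T, F x) - g * (T ^ 2 / 2)) := by
    field_simp
  have h4 : ε + 2 * (|g| + C) * (1 + 2 * Y) ^ (N + 1) / T = 2 / T ^ 2 * (ε * (T ^ 2 / 2) + K * T) := by
    rw [hK]
    field_simp
  rw [h3, h4, abs_mul, abs_of_pos (by positivity : (0 : ℝ) < 2 / T ^ 2)]
  exact mul_le_mul_of_nonneg_left hint (by positivity)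

end GW66
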