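import Pool.Agent.LibGW66.Defs
import Pool.Agent.LibBF73.V2

/-! ROW C3 : `Good` is an open condition. SHORT/MEDIUM. Cites `GN33.QG_open` (LibGN33/G8), `B35.blk_cont` (LibBF73/V2).
PLAN. `{m | Good A n k m}` is the intersection of `{m | QG ..}` (`QG_open hX`) and, for the finitely many `(k', i, x)` with
`k' ≤ k`, `i ≤ n * k` (`i ≤ 2 ^ i ≤ n k`: `Nat.lt_two_pow_self`), `Encodable.encode x ≤ n` (finite: image of `Finset.range (n + 1)` under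
`Encodable.decode`, or `Set.Finite.preimage Encodable.encode_injective.injOn (Set.finite_Iic n)`), of the sets
`{m | |dev (lam m) A x k' i| < 1 / (n + 1)}`, open by `blk_cont` (`L = 2 ^ i ≥ 1`). `Set.Finite.isOpen_biInter`. -/

open MeasureTheory Set Filter Topology
open scoped ContDiff

namespace GW66

open FG33 GWin Mes BGS FB23

variable {Γ : Type} [Group Γ] [MulAction Γ Pl] {D : Set Pl}

/-- The indices of the conditions. -/
private def C3_I (n k : ℕ) : Set (ℕ × ℕ × (ℕ × ℕ × ℚ × ℚ)) :=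
  {p | k ≤ n ^ 2 * p.1 ∧ p.1 ≤ k ∧ √k ≤ 2 ^ (p.2.1 + 1) ∧ (2 : ℝ) ^ p.2.1 ≤ n * k ∧
    Encodable.encode p.2.2 ≤ n ∧ 0 < p.2.2.2.2.1 ∧ p.2.2.2.2.1 < p.2.2.2.2.2}

private theorem C3_fin (n k : ℕ) : (C3_I n k).Finite := by
  have h1 : {x : ℕ × ℕ × ℚ × ℚ | Encodable.encode x ≤ n}.Finite :=
    Set.Finite.preimage (Encodable.encode_injective.injOn) (Set.finite_Iic n)
  refine ((Set.finite_Iic k).prod ((Set.finite_Iic (n * k)).prod h1)).subset ?_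
  rintro ⟨k', i, x⟩ ⟨-, h2, -, h3, h4, -, -⟩
  refine Set.mem_prod.2 ⟨h2, Set.mem_prod.2 ⟨?_, h4⟩⟩
  have h5 : (2 : ℕ) ^ i ≤ n * k := by exact_mod_cast h3
  have h6 : i < 2 ^ i := Nat.lt_two_pow_self
  show i ≤ n * k
  omega

theorem good_open (hX : Surface Γ D) {A : ℕ → ℝ → ℂ} (hA : ∀ j, IsAmp (A j)) (n k : ℕ) :
    IsOpen {m : Mt Γ D | Good A n k m} := by
  have hdev : ∀ p : ℕ × ℕ × (ℕ × ℕ × ℚ × ℚ),
      IsOpen {m : Mt Γ D | |dev (lam m) A p.2.2 p.1 p.2.1| < 1 / ((n : ℝ) + 1)} := by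
    rintro ⟨k', i, j, r, u, v⟩
    have h1 : Continuous fun m : Mt Γ D =>
        ∫ τ in ((u : ℝ) * 2 ^ k')..((v : ℝ) * 2 ^ k'), st (lam m) (A j) (2 ^ i) τ ^ r :=
      B35.blk_cont hX (hA j) (one_le_pow₀ (by norm_num)) _ _ r
    have h2 : Continuous fun m : Mt Γ D => dev (lam m) A (j, r, u, v) k' i :=
      (continuous_const.mul h1).sub continuous_const
    exact isOpen_lt h2.abs continuous_const
  have h : {m : Mt Γ D | Good A n k m} =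
      {m : Mt Γ D | GN33.QG Γ m.1.1 n (n * √k) ((2 ^ k : ℝ) ^ (-(1 / 2) : ℝ))} ∩
        ⋂ p ∈ C3_I n k, {m : Mt Γ D | |dev (lam m) A p.2.2 p.1 p.2.1| < 1 / ((n : ℝ) + 1)} := by
    ext m
    constructor
    · intro hm
      refine ⟨hm.sep, Set.mem_iInter₂.2 ?_⟩
      rintro ⟨k', i, x⟩ ⟨h1, h2, h3, h4, h5, h6, h7⟩
      exact hm.dev k' i h1 h2 h3 h4 x h5 h6 h7
    · rintro ⟨hm1, hm2⟩
      refine ⟨hm1, fun k' i h1 h2 h3 h4 x h5 h6 h7 => ?_⟩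
      exact (Set.mem_iInter₂.1 hm2) (k', i, x) ⟨h1, h2, h3, h4, h5, h6, h7⟩
  rw [h]
  exact (GN33.QG_open hX _ _ _).inter ((C3_fin n k).isOpen_biInter fun p _ => hdev p)

end GW66
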