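import Pool.Agent.LibGW66.Defs
import Pool.Agent.LibB35.BK

/-! ROW C4 : a metric with `BK` and separated lengths is good at all large times. SHORT/MEDIUM.
PLAN. For each of the finitely many `x = (j, r, u, v)` with `encode x ≤ n`, `0 < u < v`, `BK` with `K = n ^ 3 + 1`, `ε = 1 / (n + 2)` gives `Λ x`,
`k0 x`; take the maxima `Λ`, `k0` over the finite set (as in C3). For `k` with `k ≥ n ^ 2 * k0 + 1`, `√k ≥ 2 * max Λ 1`: if `k ≤ n ^ 2 * k'` then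
`k' ≥ k0` (otherwise `n ^ 2 * k' ≤ n ^ 2 * k0 < k`), `2 ^ i ≥ √k / 2 ≥ Λ`, `2 ^ i ≤ n * k ≤ n ^ 3 * k' ≤ K * k'`; so the deviation is at most
`1 / (n + 2) < 1 / (n + 1)`. -/

open MeasureTheory Set Filter Topology
open scoped ContDiff

namespace GW66

open FG33 GWin Mes BGS FB23

variable {Γ : Type} [Group Γ] [MulAction Γ Pl] {D : Set Pl}

theorem good_of {A : ℕ → ℝ → ℂ} {m : Mt Γ D} (hB : B35.BK (lam m) A)
    (hq : ∀ n : ℕ, ∀ᶠ k : ℕ in atTop,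
      GN33.QG Γ m.1.1 n (n * √k) ((2 ^ k : ℝ) ^ (-(1 / 2) : ℝ))) (n : ℕ) :
    ∀ᶠ k : ℕ in atTop, Good A n k m := by
  have hn0 : (0 : ℝ) ≤ n := Nat.cast_nonneg n
  have h : ∀ x : ℕ × ℕ × ℚ × ℚ, ∃ (Λ : ℝ) (k0 : ℕ), 0 < x.2.2.1 → x.2.2.1 < x.2.2.2 →
      ∀ k ≥ k0, ∀ i : ℕ, Λ ≤ 2 ^ i → (2 : ℝ) ^ i ≤ ((n ^ 3 + 1 : ℕ) : ℝ) * k →
        |dev (lam m) A x k i| ≤ 1 / ((n : ℝ) + 2) := by
    rintro ⟨j, r, u, v⟩
    by_cases huv : 0 < u ∧ u < v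
    · obtain ⟨Λ, k0, h1⟩ := hB j r (n ^ 3 + 1) u v huv.1 huv.2 (1 / ((n : ℝ) + 2))
        (by positivity)
      exact ⟨Λ, k0, fun _ _ => h1⟩
    · exact ⟨0, 0, fun h1 h2 => absurd ⟨h1, h2⟩ huv⟩
  choose Λ k0 hx using h
  have hfin : {x : ℕ × ℕ × ℚ × ℚ | Encodable.encode x ≤ n}.Finite :=
    Set.Finite.preimage (Encodable.encode_injective.injOn) (Set.finite_Iic n)
  obtain ⟨Λ', hΛ'⟩ := (hfin.image Λ).bddAbove
  obtain ⟨k0', hk0'⟩ := (hfin.image k0).bddAbove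
  have hsq : ∀ᶠ k : ℕ in atTop, 2 * Λ' ≤ √(k : ℝ) :=
    (Real.tendsto_sqrt_atTop.comp tendsto_natCast_atTop_atTop).eventually_ge_atTop _
  filter_upwards [hq n, eventually_ge_atTop (n ^ 2 * k0' + 1), hsq] with k h1 h2 h3
  refine ⟨h1, fun k' i h4 h5 h6 h7 x h8 h9 h10 => ?_⟩
  have e1 : Λ x ≤ Λ' := hΛ' ⟨x, h8, rfl⟩
  have e2 : k0 x ≤ k0' := hk0' ⟨x, h8, rfl⟩
  have e3 : k' ≥ k0 x := by
    by_contra hlt
    push Not at hlt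
    have e4 : n ^ 2 * k' ≤ n ^ 2 * k0' := Nat.mul_le_mul_left _ (by omega)
    omega
  have e5 : Λ x ≤ 2 ^ i := by
    rw [pow_succ] at h6
    linarith
  have e6 : (2 : ℝ) ^ i ≤ ((n ^ 3 + 1 : ℕ) : ℝ) * k' := by
    have e7 : (k : ℝ) ≤ (n : ℝ) ^ 2 * k' := by exact_mod_cast h4
    have e8 : (0 : ℝ) ≤ k' := Nat.cast_nonneg k'
    push_cast
    calc (2 : ℝ) ^ i ≤ n * k := h7
      _ ≤ n * ((n : ℝ) ^ 2 * k') := mul_le_mul_of_nonneg_left e7 hn0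
      _ ≤ ((n : ℝ) ^ 3 + 1) * k' := by nlinarith
  have e9 := hx x h9 h10 k' e3 i e5 e6
  refine lt_of_le_of_lt e9 ?_
  exact one_div_lt_one_div_of_lt (by positivity) (by linarith)

end GW66
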