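import Pool.Agent.LibGW66.C4
import Pool.Agent.LibBF73.F7
import Pool.Agent.LibBF73.V3
import Pool.Agent.LibB35.Fin1

/-! Good metrics are dense. -/

open MeasureTheory Set Filter Topology
open scoped ContDiff unitInterval

namespace GW66

open FG33 GWin Mes BGS FB23

variable {Γ : Type} [Group Γ] [MulAction Γ Pl] {D : Set Pl}

theorem good_dense (hX : Surface Γ D) (hO : BR.Ori Γ) {A : ℕ → ℝ → ℂ} (hA : ∀ j, IsAmp (A j))
    (n : ℕ) : _root_.Dense {m : Mt Γ D | ∃ k : ℕ, n + 1 ≤ k ∧ Good A n k m} := by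
  obtain ⟨L₀, hL₀⟩ := BGM.GM_dom hX
  obtain ⟨u, hu⟩ := BE33.exists_Qt
  intro m
  rw [mem_closure_iff_nhds]
  intro U hU
  have hcs : BGS.Cs BE33.cn := by
    have h := BE33.cn_Cs one_pos le_rfl
    simpa only [one_mul] using h
  obtain ⟨ε₀, hε₀, h1⟩ := BGM.QML_near hX L₀ hcs m hU
  obtain ⟨s, hs⟩ : ∃ s : ℝ, s = min ε₀ 1 := ⟨_, rfl⟩
  have hs0 : 0 < s := by
    rw [hs]
    exact lt_min hε₀ one_pos
  have hs1 : s ≤ 1 := by
    rw [hs]
    exact min_le_right _ _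
  have hse : s ≤ ε₀ := by
    rw [hs]
    exact min_le_left _ _
  have h0 : (fun _ : Pl => (0 : ℝ)) ∈ Test Γ := ⟨contDiff_const, fun _ _ => rfl⟩
  have hP := B35.okD_of hX hO hL₀ m h0 hs0 hs1
  have hν := B35.den_of_Qt hu
  have := hν.prob
  have : IsProbabilityMeasure (B35.Pm ((volume : Measure I).map u)) := by
    unfold B35.Pm
    infer_instance
  obtain ⟨ξ, hξ1, hξ2⟩ := ((B35.ae_blocks' hP hν hA).and (B35.qg_ae hP hν)).exists
  obtain ⟨m', hm', q, hq, hq'⟩ := h1 s hs0 hse ξ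
  have heq := B35.X_of (m := m) (m' := m') (ψ := fun _ => 0) (L := L₀) (s := s) (ζ := ξ) hq
    fun z => by rw [hq' z, zero_add]
  have hneg : ∀ z, curv (B35.Dt.X ⟨m.1.1, fun _ => 0, L₀, fun R => s * BE33.cn R⟩ Γ D ξ) z < 0 := by
    intro z
    rw [← heq]
    exact m'.2.neg z
  have hQ : ∀ n : ℕ, ∀ᶠ k : ℕ in atTop,
      GN33.QG Γ m'.1.1 n (n * √k) ((2 ^ k : ℝ) ^ (-(1 / 2) : ℝ)) := by
    rw [heq]
    exact hξ2 hneg
  obtain ⟨k, hk, hk'⟩ := ((good_of (hξ1 hneg m' heq) hQ n).and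
    (eventually_ge_atTop (n + 1))).exists
  exact ⟨m', hm', k, hk', hk⟩

end GW66
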