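import Pool.Agent.LibGW66.Defs
import Pool.Agent.LibGW66.C2
import Pool.Agent.LibFB23.R10
import Pool.Agent.LibEM73.N1

/-! ROW C7 : the moments at the special times, in both means, uniformly in the window. MEDIUM. Cites `tri_mean` (C2), `FB23.crude` (R10),
`st_cont` (LibGWa/U3).
PLAN. Given `a`, `r`, `ε`: `Λ`, `k0` from `Loc` (for `ε / 2`). For `L` with `√(k n) < L`, `L ≤ n * k n`, `2 * Λ ≤ L`, `1 ≤ L`: `i` with `2 ^ i ≤ L < 2 ^ (i + 1)`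
(`exists_nat_pow_near`), `s = L / 2 ^ i ∈ [1, 2]`, so `L = s * 2 ^ i`, `Λ ≤ 2 ^ i`, `√(k n) ≤ 2 ^ (i + 1)`, `2 ^ i ≤ n * k n`: `SS k k' i` for all `k'` with
`k n ≤ n ^ 2 * k'`, `k' ≤ k n`. (1) windows: `k' = k n` (`n ≥ 1`), `θ = 1`. (2) means, `T = 2 ^ (k n)`: `X τ = st lev a L τ ^ r`,
`|X τ| ≤ C ^ r (1 + τ) ^ (4 r)` by `crude` (`L ≥ 1`), `N = 4 r`, `Y = 2 ^ (⌊k n / (2 (N + 1))⌋ + 1)` or similar (`Y ≤ 2 √T ^ (1 / (N + 1))`), so that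
`(1 + 2 Y) ^ (N + 1) / T → 0`; for `Y ≤ y`, `2 y ≤ T`: `k' = dk y` (R18: `2 ^ k' ≤ y < 2 ^ (k' + 1)`), `θ = y / 2 ^ k'`, `k' ≤ k n`, and
`k n ≤ n ^ 2 * k'` for `n ≥ 4 (N + 1)`, say. `k' ≥ k0` for large `n` because `k n ≥ n`. Use `tri_mean` with `ε / 2`. -/

open MeasureTheory Set Filter Topology
open scoped ContDiff

namespace GW66

open FG33 GWin Mes BGS FB23

private theorem C7_small {K : ℝ} {ε : ℝ} (hε : 0 < ε) :
    ∃ m0 : ℕ, ∀ m ≥ m0, K / 2 ^ m ≤ ε := by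
  obtain ⟨m0, hm0⟩ := pow_unbounded_of_one_lt (K / ε) (one_lt_two : (1 : ℝ) < 2)
  refine ⟨m0, fun m hm => ?_⟩
  have h1 : (2 : ℝ) ^ m0 ≤ 2 ^ m := pow_le_pow_right₀ one_le_two hm
  have h2 : (0 : ℝ) < 2 ^ m := by positivity
  rw [div_le_iff₀ h2]
  have h3 : K / ε ≤ 2 ^ m := hm0.le.trans h1
  rw [div_le_iff₀ hε] at h3
  linarith

private theorem C7_local {lev : ℕ → ℝ} {k : ℕ → ℕ} {a : ℝ → ℂ} {r : ℕ} {ε Λ : ℝ} {k0 : ℕ}
    (h0 : ∀ k' ≥ k0, ∀ i : ℕ, Λ ≤ 2 ^ i → SS k k' i → ∀ θ ∈ Icc (1 : ℝ) 2, ∀ s ∈ Icc (1 : ℝ) 2,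
      |1 / (θ * 2 ^ k') * (∫ τ in (θ * 2 ^ k')..(2 * (θ * 2 ^ k')), st lev a (s * 2 ^ i) τ ^ r) -
        gaussMom (vg a) r| ≤ ε)
    {n : ℕ} {L : ℝ} (h1 : 1 ≤ L) (h2 : 2 * Λ ≤ L) (h3 : √(k n) < L) (h4 : L ≤ n * k n) :
    ∀ k' ≥ k0, k n ≤ n ^ 2 * k' → k' ≤ k n → ∀ θ ∈ Icc (1 : ℝ) 2,
      |1 / (θ * 2 ^ k') * (∫ τ in (θ * 2 ^ k')..(2 * (θ * 2 ^ k')), st lev a L τ ^ r) -
        gaussMom (vg a) r| ≤ ε := by
  obtain ⟨i, hi1, hi2⟩ := exists_nat_pow_near h1 (one_lt_two : (1 : ℝ) < 2)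
  have hp : (0 : ℝ) < 2 ^ i := by positivity
  have hi3 : L < 2 * 2 ^ i := by
    have : (2 : ℝ) ^ (i + 1) = 2 * 2 ^ i := by ring
    linarith
  intro k' hk' hk1 hk2 θ hθ
  have hs : L / 2 ^ i ∈ Icc (1 : ℝ) 2 := by
    constructor
    · rw [le_div_iff₀ hp]; linarith
    · rw [div_le_iff₀ hp]; exact hi3.le
  have hSS : SS k k' i := ⟨n, hk1, hk2, h3.le.trans hi2.le, hi1.trans h4⟩
  have hΛ : Λ ≤ 2 ^ i := by linarith
  have h5 := h0 k' hk' i hΛ hSS θ hθ (L / 2 ^ i) hs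
  have h6 : L / 2 ^ i * 2 ^ i = L := div_mul_cancel₀ L hp.ne'
  rw [h6] at h5
  exact h5

private theorem C7_div {N q : ℕ} {K n : ℕ} (hn : 4 * (N + 1) * q ≤ n) (hK : n ≤ K) :
    q ≤ K / (2 * (N + 1)) := by
  rw [Nat.le_div_iff_mul_le (by positivity)]
  nlinarith

private theorem C7_blk {N K n m k' : ℕ} (hm : m = K / (2 * (N + 1))) (hm1 : 1 ≤ m)
    (hk' : m ≤ k') (hn : 4 * (N + 1) ≤ n) : K ≤ n ^ 2 * k' := by
  have h1 : K < 2 * (N + 1) * (m + 1) := by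
    rw [hm]
    exact Nat.lt_mul_div_succ K (by positivity)
  have h2 : 2 * (N + 1) * (m + 1) ≤ 4 * (N + 1) * m := by nlinarith
  have h3 : 4 * (N + 1) * m ≤ n * k' := Nat.mul_le_mul hn hk'
  have h4 : n * k' ≤ n ^ 2 * k' := Nat.mul_le_mul_right _ (by nlinarith)
  omega

private theorem C7_pow {N K m : ℕ} (hm : m = K / (2 * (N + 1))) {c : ℝ} (hc : 0 ≤ c) :
    c * (1 + 2 * (2 : ℝ) ^ m) ^ (N + 1) / 2 ^ K ≤ c * 3 ^ (N + 1) / 2 ^ m := by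
  have h1 : 2 * (N + 1) * m ≤ K := by
    rw [hm]
    exact Nat.mul_div_le K _
  have h2 : m * (N + 1) + m ≤ K := by nlinarith
  have hp : (1 : ℝ) ≤ 2 ^ m := one_le_pow₀ one_le_two
  have h3 : (1 + 2 * (2 : ℝ) ^ m) ^ (N + 1) ≤ (3 * 2 ^ m) ^ (N + 1) :=
    pow_le_pow_left₀ (by positivity) (by linarith) _
  have h4 : (3 * (2 : ℝ) ^ m) ^ (N + 1) = 3 ^ (N + 1) * 2 ^ (m * (N + 1)) := by
    rw [mul_pow, ← pow_mul]
  have h5 : (2 : ℝ) ^ (m * (N + 1)) * 2 ^ m ≤ 2 ^ K := by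
    rw [← pow_add]
    exact pow_le_pow_right₀ one_le_two h2
  rw [div_le_div_iff₀ (by positivity) (by positivity)]
  calc c * (1 + 2 * (2 : ℝ) ^ m) ^ (N + 1) * 2 ^ m
      ≤ c * (3 ^ (N + 1) * 2 ^ (m * (N + 1))) * 2 ^ m := by
        rw [← h4]
        gcongr
    _ = c * 3 ^ (N + 1) * (2 ^ (m * (N + 1)) * 2 ^ m) := by ring
    _ ≤ c * 3 ^ (N + 1) * 2 ^ K := by gcongr

theorem at_special {lev : ℕ → ℝ} (hl : Lev lev) {k : ℕ → ℕ} (hk : ∀ n, n ≤ k n)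
    (hL : Loc lev (SS k)) {a : ℝ → ℂ} (ha : IsAmp a) (r : ℕ) {ε : ℝ} (hε : 0 < ε) :
    ∃ (Λ : ℝ) (n0 : ℕ), ∀ n ≥ n0, ∀ L : ℝ, Λ ≤ L → √(k n) < L → L ≤ n * k n →
      |1 / (2 : ℝ) ^ k n * (∫ τ in ((2 : ℝ) ^ k n)..(2 * (2 : ℝ) ^ k n), st lev a L τ ^ r) -
        gaussMom (vg a) r| ≤ ε ∧
      |EM73.tm (2 ^ k n) (fun τ => st lev a L τ ^ r) - gaussMom (vg a) r| ≤ ε := by
  obtain ⟨Λ0, k0, h0⟩ := hL a ha r (ε / 2) (half_pos hε)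
  obtain ⟨C0, hC0, hcr⟩ := crude ha hl
  obtain ⟨m0, hm0⟩ := C7_small (K := 2 * (|gaussMom (vg a) r| + C0 ^ r) * 3 ^ (4 * r + 1))
    (half_pos hε)
  refine ⟨max 1 (2 * Λ0), 4 * (4 * r + 1) * (k0 + m0 + 1), ?_⟩
  intro n hn L hΛ h3 h4
  have hL1 : 1 ≤ L := (le_max_left _ _).trans hΛ
  have hL2 : 2 * Λ0 ≤ L := (le_max_right _ _).trans hΛ
  have hloc := C7_local h0 hL1 hL2 h3 h4
  have hq : k0 + m0 + 1 ≤ k n / (2 * (4 * r + 1)) := C7_div hn (hk n)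
  have hn1 : 4 * (4 * r + 1) ≤ n := by
    refine le_trans ?_ hn
    exact Nat.le_mul_of_pos_right _ (by omega)
  obtain ⟨m, hm⟩ : ∃ m, m = k n / (2 * (4 * r + 1)) := ⟨_, rfl⟩
  rw [← hm] at hq
  have hmk : m ≤ k n := by rw [hm]; exact Nat.div_le_self _ _
  constructor
  · have h5 := hloc (k n) (by omega) (Nat.le_mul_of_pos_left _ (pow_pos (by omega) 2)) le_rfl 1
      ⟨le_rfl, one_le_two⟩
    rw [one_mul] at h5
    linarith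
  · have hcont : Continuous fun τ => st lev a L τ ^ r := (st_cont ha hl (by linarith)).pow r
    have hbd : ∀ τ : ℝ, 0 ≤ τ → |st lev a L τ ^ r| ≤ C0 ^ r * (1 + τ) ^ (4 * r) := by
      intro τ hτ
      have h5 := hcr L τ hL1
      rw [abs_of_nonneg hτ] at h5
      rw [abs_pow, pow_mul, ← mul_pow]
      exact pow_le_pow_left₀ (abs_nonneg _) h5 r
    have hw : ∀ y : ℝ, (2 : ℝ) ^ m ≤ y → 2 * y ≤ 2 ^ k n →
        |1 / y * (∫ τ in y..2 * y, st lev a L τ ^ r) - gaussMom (vg a) r| ≤ ε / 2 := by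
      intro y hy1 hy2
      have hy : 1 ≤ y := (one_le_pow₀ one_le_two).trans hy1
      have hd1 := dk_le hy
      have hd2 := dk_lt hy
      have hp : (0 : ℝ) < 2 ^ dk y := by positivity
      have hmk' : m ≤ dk y := by
        have h5 : (2 : ℝ) ^ m < 2 ^ (dk y + 1) := by
          rw [pow_succ]
          linarith
        have h6 : m < dk y + 1 := (pow_lt_pow_iff_right₀ one_lt_two).1 h5
        omega
      have hk'k : dk y ≤ k n := by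
        have h5 : (2 : ℝ) ^ dk y ≤ 2 ^ k n := by linarith
        exact (pow_le_pow_iff_right₀ one_lt_two).1 h5
      have hθ : y / 2 ^ dk y ∈ Icc (1 : ℝ) 2 := by
        constructor
        · rw [le_div_iff₀ hp]; linarith
        · rw [div_le_iff₀ hp]; exact hd2.le
      have h5 := hloc (dk y) (by omega) (C7_blk hm (by omega) hmk' hn1) hk'k _ hθ
      have h6 : y / 2 ^ dk y * 2 ^ dk y = y := div_mul_cancel₀ y hp.ne'
      rw [h6] at h5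
      exact h5
    have h5 := tri_mean hcont (C := C0 ^ r) (g := gaussMom (vg a) r) (ε := ε / 2)
      (Y := (2 : ℝ) ^ m) (T := (2 : ℝ) ^ k n) (4 * r) (by positivity) hbd (by positivity)
      (pow_le_pow_right₀ one_le_two hmk) (by positivity) hw
    have h6 := C7_pow hm (c := 2 * (|gaussMom (vg a) r| + C0 ^ r)) (by positivity)
    have h7 := hm0 m (by omega)
    unfold EM73.tm
    linarith

end GW66
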