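import Pool.Agent.LibGW66.C1
import Pool.Agent.LibGW66.C3
import Pool.Agent.LibGW66.C5
import Pool.Agent.LibGW66.C6
import Pool.Agent.LibGW66.C7
import Pool.Agent.LibFB23.R14
import Pool.Agent.LibBF73.V0
import Pool.Agent.LibEM73.F2

/-! The generic metric: one residual set for all windows, `Lam` larger than every multiple of
`log T` at arbitrarily large times. -/

open MeasureTheory ProbabilityTheory Set Filter Topology
open scoped ContDiff ENNReal NNReal

namespace GW66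

open FG33 GWin Mes BGS FB23 EM73

/-- The windows: a slow growth and large values at special times. -/
theorem lam_of {k : ℕ → ℕ} (hk : ∀ n, n + 1 ≤ k n) {Lam0 : ℝ → ℝ}
    (h0 : Tendsto Lam0 atTop atTop) :
    ∃ Lam : ℝ → ℝ, Tendsto Lam atTop atTop ∧ (∀ K : ℝ, ∃ᶠ T in atTop, K * Real.log T ≤ Lam T) ∧
      ∀ n0 : ℕ, ∀ᶠ T in atTop, ∀ L : ℝ, Lam0 T < L → L ≤ Lam T →
        ∃ n ≥ n0, T = 2 ^ k n ∧ L ≤ n * k n := by
  classical
  obtain ⟨Lam, hLam⟩ : ∃ Lam : ℝ → ℝ, Lam = fun T =>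
    if h : ∃ n, T = (2 : ℝ) ^ k n then max (Lam0 T) ((Nat.find h : ℝ) * k (Nat.find h))
    else Lam0 T := ⟨_, rfl⟩
  have hge : ∀ T, Lam0 T ≤ Lam T := by
    intro T
    simp only [hLam]
    split_ifs
    · exact le_max_left _ _
    · exact le_rfl
  -- large times have large indices
  have hbig : ∀ n0 : ℕ, ∀ᶠ T : ℝ in atTop, ∀ n : ℕ, T = 2 ^ k n → n0 ≤ n := by
    intro n0
    have h4 : ∀ᶠ T : ℝ in atTop, ∀ n ∈ Finset.range n0, T ≠ 2 ^ k n :=
      (Filter.eventually_all_finset _).2 fun n _ => eventually_ne_atTop _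
    filter_upwards [h4] with T hT n hn
    by_contra h
    exact hT n (Finset.mem_range.2 (not_le.1 h)) hn
  refine ⟨Lam, tendsto_atTop_mono hge h0, ?_, ?_⟩
  · intro K
    obtain ⟨n0, hn0⟩ := exists_nat_ge (max K 1)
    obtain ⟨T0, hT0⟩ := (hbig n0).exists_forall_of_atTop
    rw [frequently_atTop]
    intro T1
    obtain ⟨n, hn⟩ := exists_nat_ge (max T0 T1)
    have h1 : (n : ℝ) ≤ 2 ^ k n := by
      have h2 : (n : ℝ) + 1 ≤ k n := by exact_mod_cast hk n
      have h3 : (k n : ℝ) < 2 ^ k n := by exact_mod_cast Nat.lt_two_pow_self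
      linarith
    have hex : ∃ n', (2 : ℝ) ^ k n = 2 ^ k n' := ⟨n, rfl⟩
    refine ⟨2 ^ k n, ((le_max_right _ _).trans hn).trans h1, ?_⟩
    have h5 := Nat.find_spec hex
    have h6 : n0 ≤ Nat.find hex := hT0 _ (((le_max_left _ _).trans hn).trans h1) _ h5
    have h7 : Lam (2 ^ k n) = max (Lam0 (2 ^ k n)) ((Nat.find hex : ℝ) * k (Nat.find hex)) := by
      rw [hLam]
      simp only
      rw [dif_pos hex]
    rw [h7]
    refine le_trans ?_ (le_max_right _ _)
    have h5' : Real.log ((2 : ℝ) ^ k n) = (k (Nat.find hex) : ℝ) * Real.log 2 := by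
      rw [← Real.log_pow]
      exact congrArg Real.log h5
    rw [h5']
    have h8 : K ≤ (Nat.find hex : ℝ) :=
      ((le_max_left _ _).trans hn0).trans (by exact_mod_cast h6)
    have h9 : 0 ≤ Real.log 2 := Real.log_nonneg (by norm_num)
    have h10 : Real.log 2 ≤ 1 := by
      have := Real.log_two_lt_d9
      linarith
    have h11 : (0 : ℝ) ≤ k (Nat.find hex) := Nat.cast_nonneg _
    have h12 : (k (Nat.find hex) : ℝ) * Real.log 2 ≤ k (Nat.find hex) :=
      mul_le_of_le_one_right h11 h10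
    have h13 : 0 ≤ (k (Nat.find hex) : ℝ) * Real.log 2 := mul_nonneg h11 h9
    calc K * ((k (Nat.find hex) : ℝ) * Real.log 2)
        ≤ (Nat.find hex : ℝ) * ((k (Nat.find hex) : ℝ) * Real.log 2) :=
          mul_le_mul_of_nonneg_right h8 h13
      _ ≤ (Nat.find hex : ℝ) * k (Nat.find hex) :=
          mul_le_mul_of_nonneg_left h12 (Nat.cast_nonneg _)
  · intro n0
    filter_upwards [hbig n0] with T hT L hL1 hL2
    by_cases hex : ∃ n, T = (2 : ℝ) ^ k n
    · refine ⟨Nat.find hex, hT _ (Nat.find_spec hex), Nat.find_spec hex, ?_⟩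
      rw [hLam] at hL2
      simp only at hL2
      rw [dif_pos hex] at hL2
      rcases le_max_iff.1 hL2 with h | h
      · exact absurd h (not_le.2 hL1)
      · exact h
    · rw [hLam] at hL2
      simp only at hL2
      rw [dif_neg hex] at hL2
      exact absurd hL2 (not_le.2 hL1)

/-- The limit from the slow windows and the special times. -/
theorem glue {F : ℝ → ℝ → ℝ} {L Lam0 : ℝ → ℝ} {g : ℝ}
    (h1 : Tendsto (fun T => F T (min (L T) (Lam0 T))) atTop (𝓝 g))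
    (h2 : ∀ ε : ℝ, 0 < ε → ∀ᶠ T in atTop, Lam0 T < L T → |F T (L T) - g| ≤ ε) :
    Tendsto (fun T => F T (L T)) atTop (𝓝 g) := by
  rw [Metric.tendsto_nhds] at h1 ⊢
  intro ε hε
  filter_upwards [h1 ε hε, h2 (ε / 2) (half_pos hε)] with T h3 h4
  rcases le_or_gt (L T) (Lam0 T) with h | h
  · rwa [min_eq_left h] at h3
  · rw [Real.dist_eq]
    exact lt_of_le_of_lt (h4 h) (half_lt_self hε)

variable {Γ : Type} [Group Γ] [MulAction Γ Pl] {D : Set Pl}

theorem qi_of {A : ℕ → ℝ → ℂ} {m : Mt Γ D} {k : ℕ → ℕ} (hk : ∀ n, n + 1 ≤ k n)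
    (h : ∀ n, Good A n (k n) m) (n : ℕ) : GN33.QI Γ m.1.1 n := by
  intro s e hA
  have h1 : (1 : ℝ) ≤ √(k n) := by
    rw [Real.one_le_sqrt]
    exact_mod_cast le_trans (Nat.le_add_left 1 n) (hk n)
  have h2 : (n : ℝ) ≤ n * √(k n) := le_mul_of_one_le_right (Nat.cast_nonneg _) h1
  have h3 := (h n).sep s e (by exact_mod_cast hA.card) ⟨hA.card.trans h2, hA.prim, hA.nc,
    fun g hg => (hA.coef g hg).trans h2, fun g hg => (hA.len g hg).trans h2, hA.ne⟩
  have h4 : (0 : ℝ) < (2 ^ k n : ℝ) ^ (-(1 / 2) : ℝ) := by positivity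
  exact abs_pos.1 (h4.trans h3)

/-- Moments give the law in the mean with triangular weight. -/
theorem goeMeans_of_mom {m : Mt Γ D} (hl : Lev (lam m)) {L : ℝ → ℝ} (hL : Tendsto L atTop atTop)
    (hm : ∀ a : ℝ → ℂ, IsAmp a → ∀ r : ℕ, Tendsto (fun T => tm T fun u =>
      st (lam m) a (L T) u ^ r) atTop (𝓝 (gaussMom (vg a) r))) : GOEMeans m L := by
  intro a ha
  have hc : ∀ᶠ T in atTop, Continuous (st (lam m) a (L T)) := by
    filter_upwards [hL.eventually (eventually_gt_atTop 0)] with T hT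
    exact st_cont ha hl hT
  rw [varGOE_eq ha]
  constructor
  · rintro F hF ⟨B, hB⟩
    exact law_of_mom_tm (vg_nonneg a) hc (hm a ha)
      (BoundedContinuousFunction.ofNormedAddCommGroup F hF B hB)
  · intro r
    rw [gauss_moments, Real.coe_toNNReal _ (vg_nonneg a)]
    exact hm a ha r

/-- One metric. -/
theorem one (hX : Surface Γ D) (hO : BR.Ori Γ) {A : ℕ → ℝ → ℂ} (hA : FB23.Dense A)
    {m : Mt Γ D} {k : ℕ → ℕ} (hk : ∀ n, n + 1 ≤ k n) (h : ∀ n, Good A n (k n) m) :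
    ∃ Lam0 Lam : ℝ → ℝ, (Tendsto Lam0 atTop atTop ∧
        Tendsto (fun T => Lam0 T / Real.log T) atTop (𝓝 0) ∧ BGM.SepG Γ m.1.1 Lam0) ∧
      Tendsto Lam atTop atTop ∧ (∀ K : ℝ, ∃ᶠ T in atTop, K * Real.log T ≤ Lam T) ∧
      ∀ L' : ℝ → ℝ, Tendsto L' atTop atTop → (∀ᶠ T in atTop, L' T ≤ Lam T) →
        GOEMeans m L' ∧ GOEWindows m L' := by
  have hl : Lev (lam m) := GD.lev hX m
  obtain ⟨Lam0, h01, h02, h03, h04⟩ := B35.slow_at hX m (qi_of hk h)
    (fun n => (Nat.le_succ n).trans (hk n)) (fun n => le_trans (Nat.le_add_left 1 n) (hk n))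
    fun n => (h n).sep
  obtain ⟨Lam, h1, h2, h3⟩ := lam_of hk h01
  refine ⟨Lam0, Lam, ⟨h01, h02, h03⟩, h1, h2, fun L' hL' hL'2 => ?_⟩
  have hloc : Loc (lam m) (SS k) := loc hA hl fun j => bs_of h j
  have hmin : Tendsto (fun T => min (L' T) (Lam0 T)) atTop atTop := tendsto_min_atTop hL' h01
  have hmin2 : ∀ᶠ T in atTop, min (L' T) (Lam0 T) ≤ Lam0 T :=
    Eventually.of_forall fun T => min_le_right _ _
  have g1 : GOEMeans m fun T => min (L' T) (Lam0 T) := goeMeans hX hO m h02 h03 hmin hmin2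
  have g2 : GOEWindows m fun T => min (L' T) (Lam0 T) :=
    GD.one_metric hX hO m (SR85Z.sumrule hX hO m) h02 h03 hmin hmin2
  -- the special times
  have hsp : ∀ a : ℝ → ℂ, IsAmp a → ∀ (r : ℕ) (ε : ℝ), 0 < ε → ∀ᶠ T in atTop, Lam0 T < L' T →
      |1 / T * (∫ τ in T..(2 * T), st (lam m) a (L' T) τ ^ r) - gaussMom (vg a) r| ≤ ε ∧
      |tm T (fun τ => st (lam m) a (L' T) τ ^ r) - gaussMom (vg a) r| ≤ ε := by
    intro a ha r ε hε
    obtain ⟨Λ, n0, hs⟩ := at_special hl (fun n => (Nat.le_succ n).trans (hk n)) hloc ha r hε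
    filter_upwards [h3 n0, hL'2, hL'.eventually (eventually_ge_atTop Λ)] with T hT hT2 hT3 hlt
    obtain ⟨n, hn, rfl, hLn⟩ := hT (L' T) hlt hT2
    exact hs n hn _ hT3 ((h04 n).trans_lt hlt) hLn
  constructor
  · refine goeMeans_of_mom hl hL' fun a ha r => ?_
    refine glue (F := fun T L => tm T fun u => st (lam m) a L u ^ r) (Lam0 := Lam0) ?_ ?_
    · have h5 := (g1 a ha).2 r
      rw [varGOE_eq ha, gauss_moments, Real.coe_toNNReal _ (vg_nonneg a)] at h5
      exact h5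
    · intro ε hε
      filter_upwards [hsp a ha r ε hε] with T hT hlt
      exact (hT hlt).2
  · refine B35.goe_of_mom hl hL' fun a ha r => ?_
    refine glue (F := fun T L => (1 / T) * ∫ τ in T..2 * T, st (lam m) a L τ ^ r)
      (Lam0 := Lam0) ?_ ?_
    · have h5 := (g2 a ha).2 r
      rw [varGOE_eq ha, gauss_moments, Real.coe_toNNReal _ (vg_nonneg a)] at h5
      exact h5
    · intro ε hε
      filter_upwards [hsp a ha r ε hε] with T hT hlt
      exact (hT hlt).1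

/-- The generic metric. -/
theorem generic3 (hX : Surface Γ D) (hO : BR.Ori Γ) :
    ∀ᶠ m in residual (Mt Γ D), ∃ Lam0 Lam : ℝ → ℝ, (Tendsto Lam0 atTop atTop ∧
        Tendsto (fun T => Lam0 T / Real.log T) atTop (𝓝 0) ∧ BGM.SepG Γ m.1.1 Lam0) ∧
      Tendsto Lam atTop atTop ∧ (∀ K : ℝ, ∃ᶠ T in atTop, K * Real.log T ≤ Lam T) ∧
      ∀ L' : ℝ → ℝ, Tendsto L' atTop atTop → (∀ᶠ T in atTop, L' T ≤ Lam T) →
        GOEMeans m L' ∧ GOEWindows m L' := by
  obtain ⟨A, hA⟩ := exists_dense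
  have hres : ∀ᶠ m in residual (Mt Γ D), ∀ n : ℕ, ∃ k : ℕ, n + 1 ≤ k ∧ Good A n k m := by
    refine eventually_countable_forall.2 fun n => ?_
    refine residual_of_dense_open ?_ (good_dense hX hO hA.amp n)
    have e : {m : Mt Γ D | ∃ k : ℕ, n + 1 ≤ k ∧ Good A n k m} =
        ⋃ k : ℕ, ⋃ _ : n + 1 ≤ k, {m : Mt Γ D | Good A n k m} := by
      ext m
      simp
    rw [e]
    exact isOpen_iUnion fun k => isOpen_iUnion fun _ => good_open hX hA.amp n k
  filter_upwards [hres] with m hm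
  choose k hk hG using hm
  exact one hX hO hA hk hG

end GW66
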