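import Pool.Agent.LibFB23.Defs
import Pool.Agent.LibFB23.R18
import Pool.Agent.LibGN33.G8

/-! Windows beyond the Ehrenfest time for the generic metric: definitions. -/

open MeasureTheory Set Filter Topology
open scoped ContDiff

namespace GW66

open FG33 GWin Mes BGS FB23

/-- The moments of the statistics of one amplitude over the blocks, for the blocks `k` and the
dyadic windows `i` with `S k i`. -/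
def BS (lev : ℕ → ℝ) (S : ℕ → ℕ → Prop) (a : ℝ → ℂ) : Prop :=
  ∀ (r : ℕ) (u v : ℚ), 0 < u → u < v → ∀ ε : ℝ, 0 < ε → ∃ (Λ : ℝ) (k0 : ℕ), ∀ k ≥ k0,
    ∀ i : ℕ, Λ ≤ 2 ^ i → S k i →
      |1 / (((v : ℝ) - u) * 2 ^ k) * (∫ τ in ((u : ℝ) * 2 ^ k)..((v : ℝ) * 2 ^ k),
        st lev a (2 ^ i) τ ^ r) - gaussMom (vg a) r| ≤ ε

/-- Uniform bound of the even moments over these blocks. -/
def US (lev : ℕ → ℝ) (S : ℕ → ℕ → Prop) (R : ℝ) : Prop :=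
  ∀ r : ℕ, 1 ≤ r → ∀ u v : ℚ, 0 < u → u < v → ∃ (C Λ : ℝ) (k0 : ℕ), 0 ≤ C ∧ ∀ k ≥ k0,
    ∀ i : ℕ, Λ ≤ 2 ^ i → S k i → ∀ b : ℝ → ℂ, IsAmp b → Sup R b →
      1 / 2 ^ k * (∫ τ in ((u : ℝ) * 2 ^ k)..((v : ℝ) * 2 ^ k), st lev b (2 ^ i) τ ^ (2 * r)) ≤
        C * W (8 * r) b ^ (2 * r)

/-- The deviation of one block moment: `x = (j, r, u, v)`. -/
noncomputable def dev (lev : ℕ → ℝ) (A : ℕ → ℝ → ℂ) (x : ℕ × ℕ × ℚ × ℚ) (k i : ℕ) : ℝ :=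
  1 / (((x.2.2.2 : ℝ) - x.2.2.1) * 2 ^ k) *
    (∫ τ in ((x.2.2.1 : ℝ) * 2 ^ k)..((x.2.2.2 : ℝ) * 2 ^ k),
      st lev (A x.1) (2 ^ i) τ ^ x.2.1) - gaussMom (vg (A x.1)) x.2.1

/-- The metric is good at the time `2 ^ k` up to the precision `1 / (n + 1)`. -/
structure Good {Γ : Type} [Group Γ] [MulAction Γ Pl] {D : Set Pl} (A : ℕ → ℝ → ℂ) (n k : ℕ)
    (m : Mt Γ D) : Prop where
  sep : GN33.QG Γ m.1.1 n (n * √k) ((2 ^ k : ℝ) ^ (-(1 / 2) : ℝ))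
  dev : ∀ k' i : ℕ, k ≤ n ^ 2 * k' → k' ≤ k → √k ≤ 2 ^ (i + 1) → (2 : ℝ) ^ i ≤ n * k →
    ∀ x : ℕ × ℕ × ℚ × ℚ, Encodable.encode x ≤ n → 0 < x.2.2.1 → x.2.2.1 < x.2.2.2 →
      |dev (lam m) A x k' i| < 1 / ((n : ℝ) + 1)

/-- The special blocks and windows. -/
def SS (k : ℕ → ℕ) (k' i : ℕ) : Prop :=
  ∃ n : ℕ, k n ≤ n ^ 2 * k' ∧ k' ≤ k n ∧ √(k n) ≤ 2 ^ (i + 1) ∧ (2 : ℝ) ^ i ≤ n * k n

/-- The local form of the statement for all times and windows. -/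
def Loc (lev : ℕ → ℝ) (S : ℕ → ℕ → Prop) : Prop :=
  ∀ (a : ℝ → ℂ), IsAmp a → ∀ (r : ℕ) (ε : ℝ), 0 < ε → ∃ (Λ : ℝ) (k0 : ℕ), ∀ k ≥ k0, ∀ i : ℕ,
    Λ ≤ 2 ^ i → S k i → ∀ θ ∈ Icc (1 : ℝ) 2, ∀ s ∈ Icc (1 : ℝ) 2,
      |1 / (θ * 2 ^ k) * (∫ τ in (θ * 2 ^ k)..(2 * (θ * 2 ^ k)), st lev a (s * 2 ^ i) τ ^ r) -
        gaussMom (vg a) r| ≤ ε

end GW66
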