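import Pool.Agent.LibGW66.C8
import Pool.Agent.LibSW73.F5

/-! The final statement. -/

open MeasureTheory Set Filter Topology BGS EM73
open scoped ContDiff ENNReal

namespace GW66

variable {Γ : Type} [Group Γ] [MulAction Γ Pl] {D : Set Pl}

theorem every (hX : Surface Γ D) (hO : BR.Ori Γ) (m : Mt Γ D) (L : ℝ → ℝ)
    (hL : Tendsto L atTop atTop) (hL' : Tendsto (fun T => L T / Real.log T) atTop (𝓝 0)) :
    (∀ (f : ℝ → ℝ) (k : ℕ), FE35.IsTest f → (k = 1 ∨ PosFour f) →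
        normMom (FE35.vGOE f) k ≤ lowMom m f L k) ∧
      ∀ ε : ℝ, 0 < ε → ∀ᶠ T in atTop,
        (2 / Real.pi ^ 2 - ε) * Real.log (Real.log T / L T) ≤ numVar m T (1 / L T) :=
  ⟨fun _ _ hf hk => low_ge hX hO m hL hL' hf hk, fun _ hε => NV73.numVar_low1 hX hO m hL hL' hε⟩

theorem generic (hX : Surface Γ D) (hO : BR.Ori Γ) :
    ∀ᶠ m in residual (Mt Γ D),
      (∀ L : ℝ → ℝ, Tendsto L atTop atTop → Tendsto (fun T => L T / Real.log T) atTop (𝓝 0) →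
        ∀ (a : ℝ → ℂ) (k : ℕ), FG33.IsAmp a → (k = 1 ∨ PosFour (FG33.tf a)) →
          lowMom m (FG33.tf a) L k = normMom (FE35.vGOE (FG33.tf a)) k) ∧
      ∃ Lam : ℝ → ℝ, Tendsto Lam atTop atTop ∧ (∀ K : ℝ, ∃ᶠ T in atTop, K * Real.log T ≤ Lam T) ∧
        ∀ L : ℝ → ℝ, Tendsto L atTop atTop → (∀ᶠ T in atTop, L T ≤ Lam T) →
          GOEMeans m L ∧ FG33.GOEWindows m L := by
  filter_upwards [generic3 hX hO] with m hm
  obtain ⟨Lam0, Lam, -, h1, h2, h3⟩ := hm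
  refine ⟨fun L hL hL' a k ha hk => ?_, Lam, h1, h2, h3⟩
  refine le_antisymm (low_le hL h1 ?_ (fun L' h4 h5 => (h3 L' h4 h5).1) ha k)
    (low_ge hX hO m hL hL' (SC35.of_rd (SC35.rd_tf ha)) hk)
  have h6 : ∀ᶠ T in atTop, L T ≤ 1 * Real.log T := by
    filter_upwards [hL'.eventually (gt_mem_nhds one_pos), eventually_gt_atTop 1] with T h7 h8
    have h9 : 0 < Real.log T := Real.log_pos h8
    exact ((div_lt_iff₀ h9).1 h7).le
  exact ((h2 1).and_eventually h6).mono fun T hT => hT.2.trans hT.1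

end GW66
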